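import Pool.Agent.Helper83.Cub.Defs

/-!
# Coupling of two ports
-/

set_option autoImplicit false

namespace Pool.Agent.Helper83.Cub

open Finset


section rows

variable {A κ R C B : Type} [CommRing A] [Fintype κ] [Fintype C] [DecidableEq R] [CommRing B]
    (M : R → C → A) (ρ : κ → R) (χ : κ → C) (z : κ → A) (φ : A →+* B) (x : C → B)

theorem rowForm_at (hρ : Function.Injective ρ) (l : κ) :
    rowForm M ρ χ z φ x (ρ l) = (∑ c, φ (M (ρ l) c) * x c) + φ (z l) * x (χ l) := by
  classical
  unfold rowForm
  congr 1
  rw [Finset.sum_eq_single l]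
  · rw [if_pos rfl]
  · intro m _ hm
    rw [if_neg (fun h => hm (hρ h))]
  · intro h
    exact absurd (mem_univ _) h

theorem rowForm_congr {r : R} {z' : κ → A} (h : ∀ m, ρ m = r → z' m = z m) :
    rowForm M ρ χ z' φ x r = rowForm M ρ χ z φ x r := by
  unfold rowForm
  congr 1
  refine Finset.sum_congr rfl fun m _ => ?_
  split_ifs with hm
  · rw [h m hm]
  · rfl

end rows

/-- The new rows and columns in the coupling lemma. -/
def cplM {A R C : Type} [CommRing A] [DecidableEq R] (M : R → C → A) (r₁ r₂ : R) (δ : A) :
    R ⊕ Fin 3 → C ⊕ Fin 3 → A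
  | Sum.inl r, Sum.inl c => M r c
  | Sum.inl r, Sum.inr k => if r = r₁ then ![0, -δ, 1] k else if r = r₂ then ![-1, 1 - δ, 1] k else 0
  | Sum.inr _, Sum.inl _ => 0
  | Sum.inr i, Sum.inr k => ![![1, 0, 0], ![0, 1, 0], ![1, δ, 1]] i k

theorem PRep.couple {K A : Type} [CommRing K] [CommRing A] [Algebra K A] {S : Submodule K A} (hS : (1 : A) ∈ S) {κ : Type} [Fintype κ] [DecidableEq κ]
    {N : ℕ} {f : (κ → A) → A} (h : PRep S κ N f) {l l' : κ} (hl : l ≠ l') (η : K) :
    PRep S κ (N + 3) fun z => f (Function.update z l' 0) + f (Function.update z l ((1 - 2 * η) • z l)) -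
      f (Function.update (Function.update z l ((1 - 2 * η) • z l)) l' 0) := by
  classical
  obtain ⟨R, C, _, _, _, _, M, ρ, χ, hR, hC, hM, hρ, H⟩ := h
  have hSc : ∀ c : K, algebraMap K A c ∈ S := fun c => by
    rw [Algebra.algebraMap_eq_smul_one]; exact S.smul_mem _ hS
  set δ : A := algebraMap K A η with hδ
  have hδS : δ ∈ S := hSc _
  have hne : ρ l ≠ ρ l' := fun h => hl (hρ h)
  refine ⟨R ⊕ Fin 3, C ⊕ Fin 3, inferInstance, inferInstance, inferInstance, inferInstance,
    cplM M (ρ l) (ρ l') δ,
    fun m => if m = l then Sum.inr 0 else if m = l' then Sum.inr 1 else Sum.inl (ρ m),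
    fun m => Sum.inl (χ m), ?_, ?_, ?_, ?_, ?_⟩
  · rw [Fintype.card_sum, Fintype.card_fin, hR]
  · rw [Fintype.card_sum, Fintype.card_fin, hC]
  · rintro (r | i) (c | k)
    · exact hM r c
    · simp only [cplM]
      split_ifs
      · fin_cases k
        · exact S.zero_mem
        · exact S.neg_mem hδS
        · exact hS
      · fin_cases k
        · exact S.neg_mem hS
        · exact S.sub_mem hS hδS
        · exact hS
      · exact S.zero_mem
    · exact S.zero_mem
    · simp only [cplM]
      fin_cases i <;> fin_cases k
      · exact hS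
      · exact S.zero_mem
      · exact S.zero_mem
      · exact S.zero_mem
      · exact hS
      · exact S.zero_mem
      · exact hS
      · exact hδS
      · exact hS
  · intro m m' hmm
    simp only at hmm
    split_ifs at hmm with h1 h2 h3 h4 h5 h6 h7
    · rw [h1, h2]
    · simp at hmm
    · simp at hmm
    · rw [h4, h6]
    · exact hρ (Sum.inl_injective hmm)
  · intro z B _ φ x hx
    set y : C → B := fun c => x (Sum.inl c) with hy
    have hyy : ∀ c, y c * y c = 0 := fun c => hx _
    set a := x (Sum.inr 0) with ha
    set b := x (Sum.inr 1) with hb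
    set j := x (Sum.inr 2) with hj
    set L := ∑ c, φ (M (ρ l) c) * y c with hL
    set L' := ∑ c, φ (M (ρ l') c) * y c with hK
    set u := y (χ l) with hu
    set v := y (χ l') with hv
    set d := φ δ with hd
    set P := ∏ r ∈ (univ.erase (ρ l)).erase (ρ l'), rowForm M ρ χ z φ y r with hP
    -- the old relations
    have hrel : ∀ s s' : A, P * (L + φ s * u) * (L' + φ s' * v) =
        φ (f (Function.update (Function.update z l s) l' s')) * ∏ c, y c := by
      intro s s'
      rw [← H _ B φ y hyy, ← mul_prod_erase univ _ (mem_univ (ρ l)),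
        ← mul_prod_erase (univ.erase (ρ l)) _ (mem_erase.2 ⟨hne.symm, mem_univ (ρ l')⟩),
        rowForm_at M ρ χ _ φ y hρ, rowForm_at M ρ χ _ φ y hρ, Function.update_self,
        Function.update_of_ne hl, Function.update_self]
      have : ∏ r ∈ (univ.erase (ρ l)).erase (ρ l'), rowForm M ρ χ
          (Function.update (Function.update z l s) l' s') φ y r = P := by
        refine Finset.prod_congr rfl fun r hr => ?_
        rw [mem_erase, mem_erase] at hr
        apply rowForm_congr
        intro m hm
        rw [Function.update_of_ne, Function.update_of_ne]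
        · rintro rfl; exact hr.2.1 hm.symm
        · rintro rfl; exact hr.1 hm.symm
      rw [this]
      ring
    have h00 := hrel 0 0
    have h10 := hrel 1 0
    have h01 := hrel 0 1
    have h11 := hrel 1 1
    rw [map_zero, zero_mul, zero_mul, add_zero, add_zero] at h00
    rw [map_zero, zero_mul, map_one, one_mul, add_zero] at h10 h01
    rw [map_one, one_mul, one_mul] at h11
    have ou : (∏ c, y c) * u = 0 := prod_mul_var y hyy _
    have ov : (∏ c, y c) * v = 0 := prod_mul_var y hyy _
    have oL : (∏ c, y c) * L = 0 := prod_mul_form y hyy _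
    have oK : (∏ c, y c) * L' = 0 := prod_mul_form y hyy _
    have e1 : P * L * L' * u = 0 := by rw [h00, mul_assoc, ou, mul_zero]
    have e2 : P * L * L' * v = 0 := by rw [h00, mul_assoc, ov, mul_zero]
    have e3 : P * L * u * v = 0 := by
      have : P * u * v = (φ (f (Function.update (Function.update z l 1) l' 1)) -
          φ (f (Function.update (Function.update z l 1) l' 0)) -
          φ (f (Function.update (Function.update z l 0) l' 1)) +
          φ (f (Function.update (Function.update z l 0) l' 0))) * ∏ c, y c := by
        linear_combination h11 - h10 - h01 + h00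
      have h5 := congrArg (· * L) this
      beta_reduce at h5
      rw [mul_assoc _ (∏ c, y c) L, oL, mul_zero] at h5
      linear_combination h5
    have e4 : P * L' * u * v = 0 := by
      have : P * u * v = (φ (f (Function.update (Function.update z l 1) l' 1)) -
          φ (f (Function.update (Function.update z l 1) l' 0)) -
          φ (f (Function.update (Function.update z l 0) l' 1)) +
          φ (f (Function.update (Function.update z l 0) l' 0))) * ∏ c, y c := by
        linear_combination h11 - h10 - h01 + h00
      have h5 := congrArg (· * L') this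
      beta_reduce at h5
      rw [mul_assoc _ (∏ c, y c) L', oK, mul_zero] at h5
      linear_combination h5
    -- the new rows
    have r1 : ∀ r, r ≠ ρ l → r ≠ ρ l' → rowForm (cplM M (ρ l) (ρ l') δ)
        (fun m => if m = l then Sum.inr 0 else if m = l' then Sum.inr 1 else Sum.inl (ρ m))
        (fun m => Sum.inl (χ m)) z φ x (Sum.inl r) = rowForm M ρ χ z φ y r := by
      intro r h1 h2
      unfold rowForm
      rw [Fintype.sum_sum_type]
      simp only [cplM, if_neg h1, if_neg h2, map_zero, zero_mul, Finset.sum_const_zero, add_zero]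
      congr 1
      refine Finset.sum_congr rfl fun m _ => ?_
      by_cases hm1 : m = l
      · subst hm1
        simp [Ne.symm h1]
      · by_cases hm2 : m = l'
        · subst hm2
          simp [hm1, Ne.symm h2]
        · simp [hm1, hm2, hy]
    have r2 : rowForm (cplM M (ρ l) (ρ l') δ)
        (fun m => if m = l then Sum.inr 0 else if m = l' then Sum.inr 1 else Sum.inl (ρ m))
        (fun m => Sum.inl (χ m)) z φ x (Sum.inl (ρ l)) = L - d * b + j := by
      unfold rowForm
      rw [Fintype.sum_sum_type, Fin.sum_univ_three, Finset.sum_eq_zero (s := univ)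
        (f := fun m => if (if m = l then (Sum.inr 0 : R ⊕ Fin 3) else if m = l' then Sum.inr 1 else
          Sum.inl (ρ m)) = Sum.inl (ρ l) then φ (z m) * x (Sum.inl (χ m)) else 0)]
      · simp only [cplM, if_true, Matrix.cons_val_zero, Matrix.cons_val_one, Matrix.cons_val_two,
          Matrix.head_cons, Matrix.tail_cons, map_zero, map_neg, map_one, Matrix.cons_val]
        rw [← hd, ← ha, ← hb, ← hj]
        simp only [hL, hy]
        ring
      · intro m _
        rw [if_neg]
        split_ifs with h1 h2
        · simp
        · simp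
        · intro h3
          exact h1 (hρ (Sum.inl_injective h3))
    have r3 : rowForm (cplM M (ρ l) (ρ l') δ)
        (fun m => if m = l then Sum.inr 0 else if m = l' then Sum.inr 1 else Sum.inl (ρ m))
        (fun m => Sum.inl (χ m)) z φ x (Sum.inl (ρ l')) = L' - a + (1 - d) * b + j := by
      unfold rowForm
      rw [Fintype.sum_sum_type, Fin.sum_univ_three, Finset.sum_eq_zero (s := univ)
        (f := fun m => if (if m = l then (Sum.inr 0 : R ⊕ Fin 3) else if m = l' then Sum.inr 1 else
          Sum.inl (ρ m)) = Sum.inl (ρ l') then φ (z m) * x (Sum.inl (χ m)) else 0)]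
      · simp only [cplM, if_neg hne.symm, if_true, Matrix.cons_val_zero, Matrix.cons_val_one,
          Matrix.cons_val_two, Matrix.head_cons, Matrix.tail_cons, map_sub, map_neg, map_one,
          Matrix.cons_val]
        rw [← hd, ← ha, ← hb, ← hj]
        simp only [hK, hy]
        ring
      · intro m _
        rw [if_neg]
        split_ifs with h1 h2
        · simp
        · simp
        · intro h3
          exact h2 (hρ (Sum.inl_injective h3))
    have r4 : rowForm (cplM M (ρ l) (ρ l') δ)
        (fun m => if m = l then Sum.inr 0 else if m = l' then Sum.inr 1 else Sum.inl (ρ m))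
        (fun m => Sum.inl (χ m)) z φ x (Sum.inr 0) = a + φ (z l) * u := by
      unfold rowForm
      rw [Fintype.sum_sum_type, Fin.sum_univ_three, Finset.sum_eq_single l]
      · simp [cplM, ← ha, ← hb, ← hj, hu, hy]
      · intro m _ hm
        rw [if_neg]
        beta_reduce
        rw [if_neg hm]
        split_ifs <;> simp
      · intro h
        exact absurd (mem_univ _) h
    have r5 : rowForm (cplM M (ρ l) (ρ l') δ)
        (fun m => if m = l then Sum.inr 0 else if m = l' then Sum.inr 1 else Sum.inl (ρ m))
        (fun m => Sum.inl (χ m)) z φ x (Sum.inr 1) = b + φ (z l') * v := by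
      unfold rowForm
      rw [Fintype.sum_sum_type, Fin.sum_univ_three, Finset.sum_eq_single l']
      · simp [cplM, ← ha, ← hb, ← hj, hv, hy, hl.symm]
      · intro m _ hm
        rw [if_neg]
        beta_reduce
        rw [if_neg hm]
        split_ifs <;> simp
      · intro h
        exact absurd (mem_univ _) h
    have r6 : rowForm (cplM M (ρ l) (ρ l') δ)
        (fun m => if m = l then Sum.inr 0 else if m = l' then Sum.inr 1 else Sum.inl (ρ m))
        (fun m => Sum.inl (χ m)) z φ x (Sum.inr 2) = a + d * b + j := by
      unfold rowForm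
      rw [Fintype.sum_sum_type, Fin.sum_univ_three, Finset.sum_eq_zero (s := univ)
        (f := fun m => if (if m = l then (Sum.inr 0 : R ⊕ Fin 3) else if m = l' then Sum.inr 1 else
          Sum.inl (ρ m)) = Sum.inr 2 then φ (z m) * x (Sum.inl (χ m)) else 0)]
      · simp [cplM, ← ha, ← hb, ← hj, ← hd]
      · intro m _
        rw [if_neg]
        split_ifs <;> simp
    rw [Fintype.prod_sum_type, Fin.prod_univ_three, r4, r5, r6,
      ← mul_prod_erase univ _ (mem_univ (ρ l)),
      ← mul_prod_erase (univ.erase (ρ l)) _ (mem_erase.2 ⟨hne.symm, mem_univ (ρ l')⟩), r2, r3]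
    have hP' : ∏ r ∈ (univ.erase (ρ l)).erase (ρ l'), rowForm (cplM M (ρ l) (ρ l') δ)
        (fun m => if m = l then Sum.inr 0 else if m = l' then Sum.inr 1 else Sum.inl (ρ m))
        (fun m => Sum.inl (χ m)) z φ x (Sum.inl r) = P := by
      refine Finset.prod_congr rfl fun r hr => ?_
      rw [mem_erase, mem_erase] at hr
      exact r1 r hr.2.1 hr.1
    rw [hP', Fintype.prod_sum_type, Fin.prod_univ_three, ← ha, ← hb, ← hj]
    have key := couple_identity P a b j L L' u v (φ (z l)) (φ (z l')) d (hx _) (hx _) (hx _) e1 e2 e3 e4
    have g1 := hrel (z l) 0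
    have g2 := hrel ((1 - 2 * η) • z l) (z l')
    have g3 := hrel ((1 - 2 * η) • z l) 0
    rw [Function.update_eq_self] at g1
    rw [Function.update_eq_self_iff.2 (by rw [Function.update_of_ne hl.symm])] at g2
    rw [map_zero, zero_mul, add_zero] at g1 g3
    have ht : φ ((1 - 2 * η) • z l) = (1 - 2 * d) * φ (z l) := by
      rw [hd, hδ, Algebra.smul_def, map_mul]
      congr 1
      rw [map_sub, map_mul, map_one, map_ofNat, map_sub, map_mul, map_one, map_ofNat]
    rw [ht] at g2 g3
    rw [map_sub, map_add]
    linear_combination key + (g1 + g2 - g3) * (a * b * j)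

end Pool.Agent.Helper83.Cub
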