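import Mathlib

/-!
# Ported matrices: definitions and the coupling lemma

`PRep S κ N f`: the function `f : (κ → A) → A` is the permanent of an `N × N` matrix with entries in `S`
plus one extra entry `z l` (a port) for each `l : κ`, the ports being in different rows.
The permanent is characterised by the product of the row forms in variables of square zero.
-/

set_option autoImplicit false

namespace Pool.Agent.Helper83.Cub

open Finset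

variable {K A : Type} [CommRing K] [CommRing A] [Algebra K A]

/-- The row form of a ported matrix. -/
noncomputable def rowForm {A κ R C B : Type} [CommRing A] [Fintype κ] [Fintype C] [DecidableEq R] [CommRing B]
    (M : R → C → A) (ρ : κ → R) (χ : κ → C) (z : κ → A) (φ : A →+* B) (x : C → B) (r : R) : B :=
  (∑ c, φ (M r c) * x c) + ∑ l, if ρ l = r then φ (z l) * x (χ l) else 0

/-- `f` is the permanent of a ported matrix of size `N`. -/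
def PRep (S : Submodule K A) (κ : Type) [Fintype κ] (N : ℕ) (f : (κ → A) → A) : Prop :=
  ∃ (R C : Type) (_ : Fintype R) (_ : Fintype C) (_ : DecidableEq R) (_ : DecidableEq C)
    (M : R → C → A) (ρ : κ → R) (χ : κ → C),
    Fintype.card R = N ∧ Fintype.card C = N ∧ (∀ r c, M r c ∈ S) ∧ Function.Injective ρ ∧
    ∀ (z : κ → A) (B : Type) [CommRing B] (φ : A →+* B) (x : C → B), (∀ c, x c * x c = 0) →
      ∏ r, rowForm M ρ χ z φ x r = φ (f z) * ∏ c, x c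

theorem PRep.congr {S : Submodule K A} {κ : Type} [Fintype κ] {N : ℕ} {f g : (κ → A) → A}
    (h : PRep S κ N f) (hfg : ∀ z, g z = f z) : PRep S κ N g := by
  have : g = f := funext hfg
  rwa [this]

theorem PRep.size {S : Submodule K A} {κ : Type} [Fintype κ] {N N' : ℕ} {f : (κ → A) → A}
    (h : PRep S κ N f) (hN : N = N') : PRep S κ N' f := hN ▸ h

/-! ### the coupling lemma -/

theorem couple_identity {B : Type} [CommRing B] (P a b j L K u v z w d : B)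
    (ha : a * a = 0) (hb : b * b = 0) (hj : j * j = 0) (h1 : P * L * K * u = 0)
    (h2 : P * L * K * v = 0) (h3 : P * L * u * v = 0) (h4 : P * K * u * v = 0) :
    P * ((L - d * b + j) * (K - a + (1 - d) * b + j)) * ((a + z * u) * (b + w * v) * (a + d * b + j)) =
      P * (L * K + z * u * K + w * v * L + (1 - 2 * d) * (z * w * u * v)) * (a * b * j) := by
  linear_combination
    P * (1*b*L*K + 1*L*K*v*w + (-1)*a*b*L + (-1)*a*L*v*w + (-1)*b*L*u*z + (-1)*L*u*v*z*w + (-2)*b*b*L*d + (-2)*b*L*v*w*d + 1*b*b*L + 1*b*L*v*w + (-1)*b*b*K*d + (-1)*b*K*v*w*d + 1*a*b*b*d + 1*a*b*v*w*d + 1*b*b*u*z*d + 1*b*u*v*z*w*d + 2*b*b*b*d*d + 2*b*b*v*w*d*d + (-2)*b*b*j*d + (-2)*b*j*v*w*d + (-1)*b*b*b*d + (-1)*b*b*v*w*d + 1*b*j*K + 1*j*K*v*w + (-1)*a*b*j + (-1)*a*j*v*w + (-1)*b*j*u*z + (-1)*j*u*v*z*w + 1*b*b*j + 1*b*j*v*w) * ha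
    + P * (1*a*L*K*d + 1*L*K*u*z*d + (-2)*a*L*u*z*d + 1*a*L*u*z + 1*a*b*L*d + 1*a*L*v*w*d + 1*b*L*u*z*d + 1*L*u*v*z*w*d + 1*a*j*L + 1*j*L*u*z + (-1)*a*b*L*d*d + (-1)*a*L*v*w*d*d + (-1)*b*L*u*z*d*d + (-1)*L*u*v*z*w*d*d + (-1)*a*K*u*z*d + (-1)*a*b*K*d*d + (-1)*a*K*v*w*d*d + (-1)*b*K*u*z*d*d + (-1)*K*u*v*z*w*d*d + 2*a*b*u*z*d*d + 2*a*u*v*z*w*d*d + (-2)*a*j*u*z*d + (-1)*a*b*u*z*d + (-1)*a*u*v*z*w*d + (-1)*a*b*b*d*d + (-1)*a*b*v*w*d*d + (-1)*b*b*u*z*d*d + (-1)*b*u*v*z*w*d*d + 1*a*b*b*d*d*d + 1*a*b*v*w*d*d*d + 1*b*b*u*z*d*d*d + 1*b*u*v*z*w*d*d*d + (-1)*a*b*j*d*d + (-1)*a*j*v*w*d*d + (-1)*b*j*u*z*d*d + (-1)*j*u*v*z*w*d*d + (-1)*a*j*j*d + (-1)*j*j*u*z*d + 1*a*j*u*z + 1*a*j*j + 1*j*j*u*z) * hb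
    + P * (1*a*b*L + 1*a*L*v*w + 1*b*L*u*z + 1*L*u*v*z*w + (-1)*a*b*v*w*d + (-1)*b*u*v*z*w*d + 1*a*b*K + 1*a*K*v*w + 1*b*K*u*z + 1*K*u*v*z*w + 1*a*b*v*w + 1*b*u*v*z*w + 1*a*b*j + 1*a*j*v*w + 1*b*j*u*z + 1*j*u*v*z*w) * hj
    + (1*a*b*z + 1*a*v*z*w + 1*b*v*z*w*d + 1*b*j*z + 1*j*v*z*w) * h1
    + (1*a*b*w*d + 1*a*j*w) * h2
    + ((-2)*a*b*z*w*d + 1*a*b*z*w + 1*b*j*z*w) * h3
    + ((-1)*a*b*z*w*d + 1*a*j*z*w) * h4

theorem prod_mul_var {C B : Type} [Fintype C] [CommRing B] (x : C → B)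
    (hx : ∀ c, x c * x c = 0) (c : C) : (∏ c, x c) * x c = 0 := by
  classical
  rw [← mul_prod_erase univ x (mem_univ c), mul_assoc, mul_comm _ (x c), ← mul_assoc, hx, zero_mul]

theorem prod_mul_form {C B : Type} [Fintype C] [CommRing B] (x : C → B)
    (hx : ∀ c, x c * x c = 0) (m : C → B) : (∏ c, x c) * ∑ c, m c * x c = 0 := by
  rw [mul_sum]
  refine sum_eq_zero fun c _ => ?_
  rw [mul_left_comm, prod_mul_var x hx, mul_zero]

end Pool.Agent.Helper83.Cub
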